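import Pool.Agent.Q291.HEA.Stm2

/-!
# Project HEA, job CHAIN (helper247): symmetric chains in a grid
-/

set_option autoImplicit false

namespace Pool.Agent.Q247.HEA

open MeasureTheory Set Pool.Agent.Q291.HEA

theorem t_CHAIN : P_CHAIN := by
  intro ν _ l c hl hCB s
  induction s with
  | zero =>
    intro k x y _ _
    simp
  | succ s ih =>
    intro k x y hx hy
    rcases k with _ | k
    · simp
    · set G : ℕ → ℕ → ℝ := fun m j => ν.real (Ico (y j - x m) (y j - x m + l)) with hG
      have e1 : ∑ m ∈ Finset.range (s + 1), ∑ j ∈ Finset.range (k + 1), G m j =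
          ∑ m ∈ Finset.range s, ∑ j ∈ Finset.range k, G (m + 1) (j + 1) + (∑ m ∈ Finset.range (s + 1), G m 0 +
            ∑ j ∈ Finset.range k, G 0 (j + 1)) := by
        have h1 : ∀ m, ∑ j ∈ Finset.range (k + 1), G m j = ∑ j ∈ Finset.range k, G m (j + 1) + G m 0 := fun m =>
          Finset.sum_range_succ' _ _
        simp_rw [h1]
        rw [Finset.sum_add_distrib, Finset.sum_range_succ' (fun m => ∑ j ∈ Finset.range k, G m (j + 1))]
        ring
      have h2 : ∑ m ∈ Finset.range s, ∑ j ∈ Finset.range k, G (m + 1) (j + 1) ≤
          ∑ r ∈ Finset.range (min s k), c (s + k - 1 - 2 * r) :=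
        ih k (fun m => x (m + 1)) (fun j => y (j + 1)) (fun m hm => hx (m + 1) (by omega)) (fun j => hy (j + 1))
      -- the chain
      set w : ℕ → ℝ := fun i => if i ≤ s then y 0 - x (s - i) else y (i - s) - x 0 with hw
      have hwl : ∀ i, w i + l ≤ w (i + 1) := by
        intro i
        simp only [hw]
        rcases Nat.lt_trichotomy i s with h | h | h
        · rw [if_pos h.le, if_pos (show i + 1 ≤ s by omega)]
          have h3 := hx (s - (i + 1)) (by omega)
          have h4 : s - (i + 1) + 1 = s - i := by omega
          rw [h4] at h3
          linarith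
        · subst h
          rw [if_pos le_rfl, if_neg (by omega)]
          have h3 := hy 0
          have h4 : i + 1 - i = 1 := by omega
          rw [h4, Nat.sub_self]
          linarith
        · rw [if_neg (by omega), if_neg (by omega)]
          have h3 := hy (i - s)
          have h4 : i + 1 - s = i - s + 1 := by omega
          rw [h4]
          linarith
      have h3 := hCB (s + 1 + k) w hwl
      have e2 : ∑ j ∈ Finset.range (s + 1 + k), ν.real (Ico (w j) (w j + l)) =
          ∑ m ∈ Finset.range (s + 1), G m 0 + ∑ j ∈ Finset.range k, G 0 (j + 1) := by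
        rw [Finset.sum_range_add]
        congr 1
        · rw [← Finset.sum_range_reflect (fun m => G m 0)]
          refine Finset.sum_congr rfl fun i hi => ?_
          rw [Finset.mem_range] at hi
          simp only [hw, hG]
          rw [if_pos (show i ≤ s by omega)]
          have : s + 1 - 1 - i = s - i := by omega
          rw [this]
        · refine Finset.sum_congr rfl fun j _ => ?_
          simp only [hw, hG]
          rw [if_neg (show ¬ (s + 1 + j ≤ s) by omega)]
          have : s + 1 + j - s = j + 1 := by omega
          rw [this]
      have e3 : ∑ r ∈ Finset.range (min (s + 1) (k + 1)), c (s + 1 + (k + 1) - 1 - 2 * r) =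
          ∑ r ∈ Finset.range (min s k), c (s + k - 1 - 2 * r) + c (s + 1 + k) := by
        have h4 : min (s + 1) (k + 1) = min s k + 1 := by omega
        rw [h4, Finset.sum_range_succ']
        congr 1
        refine Finset.sum_congr rfl fun r hr => ?_
        rw [Finset.mem_range] at hr
        congr 1
        omega
      rw [e1, e3]
      rw [e2] at h3
      exact add_le_add h2 h3

end Pool.Agent.Q247.HEA
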