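import Pool.Agent.Q291.HEA.Stm2

/-!
# Project HEA, job INTEG (helper247): one summand with the law `tri.map q`
-/

set_option autoImplicit false

namespace Pool.Agent.Q247.HEA

open MeasureTheory Set Filter Topology Pool.Agent.Q291.HEA

section comb

variable {h : ℝ → ℝ} {M : ℝ}

lemma ii (hm : Measurable h) (h0 : ∀ x, 0 ≤ h x) (hM : ∀ x, h x ≤ M) (a b : ℝ) : IntervalIntegrable h volume a b := by
  refine (intervalIntegrable_const (c := M) (μ := volume) (a := a) (b := b)).mono_fun hm.aestronglyMeasurable ?_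
  refine Eventually.of_forall fun x => ?_
  show ‖h x‖ ≤ ‖M‖
  rw [Real.norm_of_nonneg (h0 x), Real.norm_of_nonneg ((h0 x).trans (hM x))]
  exact hM x

lemma comb1 (hm : Measurable h) (h0 : ∀ x, 0 ≤ h x) (hM : ∀ x, h x ≤ M) (g : ℕ → ℝ) {p : ℝ} (hp : 0 < p)
    (H : ∀ (s : ℕ) (w0 : ℝ), -1 < w0 → (∀ m : ℕ, m < s → w0 + 2 * p * m < 1) → ∑ m ∈ Finset.range s, h (w0 + 2 * p * m) ≤ g s)
    (n : ℕ) {z : ℝ} (hz1 : z < 1) (hn : p * n ≤ z) (hn2 : z ≤ p * (n + 1)) :
    ∫ w in (-z)..z, h w ≤ (2 * z - 2 * p * n) * g (n + 1) + (2 * p * (n + 1) - 2 * z) * g n := by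
  set r := 2 * z - 2 * p * n with hr
  have hr0 : 0 ≤ r := by rw [hr]; linarith
  have hr2 : r ≤ 2 * p := by rw [hr]; linarith
  have hint := ii hm h0 hM
  have hshift : ∀ (d a b : ℝ), IntervalIntegrable (fun t => h (d + t)) volume a b := fun d a b =>
    ii (hm.comp (measurable_const_add d)) (fun x => h0 _) (fun x => hM _) a b
  -- decomposition
  have e1 : ∫ w in (-z)..z, h w = (∫ w in (-z)..(-z + 2 * p * n), h w) + ∫ w in (-z + 2 * p * n)..z, h w :=
    (intervalIntegral.integral_add_adjacent_intervals (hint _ _) (hint _ _)).symm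
  have e2 : ∫ w in (-z)..(-z + 2 * p * n), h w = ∑ m ∈ Finset.range n, ∫ t in (0 : ℝ)..(2 * p), h ((-z + 2 * p * m) + t) := by
    have h1 := intervalIntegral.sum_integral_adjacent_intervals (f := h) (μ := volume) (a := fun m : ℕ => -z + 2 * p * m) (n := n)
      (fun m _ => hint _ _)
    simp only [Nat.cast_zero, mul_zero, add_zero] at h1
    rw [← h1]
    refine Finset.sum_congr rfl fun m _ => ?_
    rw [intervalIntegral.integral_comp_add_left (fun x => h x)]
    congr 1
    · ring
    · push_cast; ring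
  have e3 : ∫ w in (-z + 2 * p * n)..z, h w = ∫ t in (0 : ℝ)..r, h ((-z + 2 * p * n) + t) := by
    rw [intervalIntegral.integral_comp_add_left (fun x => h x)]
    congr 1
    · ring
    · rw [hr]; ring
  have e4 : ∀ m ∈ Finset.range n, ∫ t in (0 : ℝ)..(2 * p), h ((-z + 2 * p * m) + t) =
      (∫ t in (0 : ℝ)..r, h ((-z + 2 * p * m) + t)) + ∫ t in r..(2 * p), h ((-z + 2 * p * m) + t) := fun m _ =>
    (intervalIntegral.integral_add_adjacent_intervals (hshift _ _ _) (hshift _ _ _)).symm
  have e5 : ∫ w in (-z)..z, h w = (∫ t in (0 : ℝ)..r, ∑ m ∈ Finset.range (n + 1), h ((-z + 2 * p * m) + t)) +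
      ∫ t in r..(2 * p), ∑ m ∈ Finset.range n, h ((-z + 2 * p * m) + t) := by
    rw [intervalIntegral.integral_finset_sum (fun m _ => hshift _ _ _), intervalIntegral.integral_finset_sum (fun m _ => hshift _ _ _),
      e1, e2, e3, Finset.sum_congr rfl e4, Finset.sum_add_distrib, Finset.sum_range_succ]
    ring
  have hsumI : ∀ (s : ℕ) (a b : ℝ), IntervalIntegrable (fun t => ∑ m ∈ Finset.range s, h ((-z + 2 * p * m) + t)) volume a b := by
    intro s a b
    refine ii (h := fun t => ∑ m ∈ Finset.range s, h ((-z + 2 * p * m) + t)) (M := s * M) ?_ ?_ ?_ a b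
    · exact Finset.measurable_sum _ fun m _ => hm.comp (measurable_const_add _)
    · exact fun x => Finset.sum_nonneg fun m _ => h0 _
    · intro x
      refine (Finset.sum_le_sum fun m _ => hM _).trans ?_
      rw [Finset.sum_const, Finset.card_range, nsmul_eq_mul]
  have b1 : ∫ t in (0 : ℝ)..r, ∑ m ∈ Finset.range (n + 1), h ((-z + 2 * p * m) + t) ≤ r * g (n + 1) := by
    have h1 := intervalIntegral.integral_mono_on hr0 (hsumI (n + 1) 0 r) (intervalIntegrable_const (c := g (n + 1))) (fun t ht => by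
      have h2 := H (n + 1) (-z + t) (by linarith [ht.1]) (fun m hm' => by
        have h3 : (m : ℝ) ≤ n := by exact_mod_cast Nat.lt_succ_iff.1 hm'
        have h4 : 2 * p * m ≤ 2 * p * n := mul_le_mul_of_nonneg_left h3 (by linarith)
        have := ht.2
        rw [hr] at this
        linarith)
      refine le_trans (le_of_eq ?_) h2
      refine Finset.sum_congr rfl fun m _ => ?_
      congr 1; ring)
    rw [intervalIntegral.integral_const, smul_eq_mul, sub_zero] at h1
    exact h1
  have b2 : ∫ t in r..(2 * p), ∑ m ∈ Finset.range n, h ((-z + 2 * p * m) + t) ≤ (2 * p - r) * g n := by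
    have h1 := intervalIntegral.integral_mono_on hr2 (hsumI n r (2 * p)) (intervalIntegrable_const (c := g n)) (fun t ht => by
      have h2 := H n (-z + t) (by linarith [ht.1]) (fun m hm' => by
        have h3 : (m : ℝ) + 1 ≤ n := by exact_mod_cast hm'
        have h4 : 2 * p * (m + 1) ≤ 2 * p * n := mul_le_mul_of_nonneg_left h3 (by linarith)
        have := ht.2
        linarith)
      refine le_trans (le_of_eq ?_) h2
      refine Finset.sum_congr rfl fun m _ => ?_
      congr 1; ring)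
    rw [intervalIntegral.integral_const, smul_eq_mul] at h1
    exact h1
  rw [e5]
  have e6 : 2 * p * (n + 1) - 2 * z = 2 * p - r := by rw [hr]; ring
  rw [e6]
  linarith

lemma int_lin (a b α β : ℝ) : ∫ x in a..b, (α * x + β) = α * (b ^ 2 - a ^ 2) / 2 + β * (b - a) := by
  rw [intervalIntegral.integral_add (Continuous.intervalIntegrable (by fun_prop) _ _) (Continuous.intervalIntegrable (by fun_prop) _ _),
    intervalIntegral.integral_const_mul, integral_id,
    intervalIntegral.integral_const, smul_eq_mul]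
  ring

lemma J_mono (hm : Measurable h) (h0 : ∀ x, 0 ≤ h x) (hM : ∀ x, h x ≤ M) : MonotoneOn (fun z : ℝ => ∫ w in (-z)..z, h w) (Ici 0) := by
  intro a ha b hb hab
  have hint := ii hm h0 hM
  simp only [mem_Ici] at ha hb
  have e : ∫ w in (-b)..b, h w = (∫ w in (-b)..(-a), h w) + (∫ w in (-a)..a, h w) + ∫ w in a..b, h w := by
    rw [intervalIntegral.integral_add_adjacent_intervals (hint _ _) (hint _ _), intervalIntegral.integral_add_adjacent_intervals (hint _ _) (hint _ _)]
  have h1 : 0 ≤ ∫ w in (-b)..(-a), h w := intervalIntegral.integral_nonneg (by linarith) fun x _ => h0 x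
  have h2 : 0 ≤ ∫ w in a..b, h w := intervalIntegral.integral_nonneg hab fun x _ => h0 x
  show ∫ w in (-a)..a, h w ≤ ∫ w in (-b)..b, h w
  rw [e]; linarith

lemma J_ii (hm : Measurable h) (h0 : ∀ x, 0 ≤ h x) (hM : ∀ x, h x ≤ M) {a b : ℝ} (ha : 0 ≤ a) (hab : a ≤ b) :
    IntervalIntegrable (fun z : ℝ => ∫ w in (-z)..z, h w) volume a b := by
  refine MonotoneOn.intervalIntegrable ((J_mono hm h0 hM).mono ?_)
  rw [uIcc_of_le hab]
  intro x hx
  exact ha.trans hx.1

lemma comb2 (hm : Measurable h) (h0 : ∀ x, 0 ≤ h x) (hM : ∀ x, h x ≤ M) (g : ℕ → ℝ) (hg0 : g 0 = 0) {p v : ℝ} (hp : 0 < p) (hv : 0 ≤ v)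
    (hvp : v ≤ p) {K : ℕ} (hK : 1 ≤ K) (hKp : p * K + v = 1)
    (H : ∀ (s : ℕ) (w0 : ℝ), -1 < w0 → (∀ m : ℕ, m < s → w0 + 2 * p * m < 1) → ∑ m ∈ Finset.range s, h (w0 + 2 * p * m) ≤ g s) :
    ∫ z in (0 : ℝ)..1, (∫ w in (-z)..z, h w) ≤
      2 * p ^ 2 * ∑ s ∈ Finset.range K, g s + (p ^ 2 + 2 * p * v - v ^ 2) * g K + v ^ 2 * g (K + 1) := by
  set J : ℝ → ℝ := fun z => ∫ w in (-z)..z, h w with hJ
  have hJi : ∀ a b : ℝ, 0 ≤ a → a ≤ b → IntervalIntegrable J volume a b := fun a b ha hab => J_ii hm h0 hM ha hab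
  have hpK : 0 ≤ p * K := by positivity
  have hpK1 : p * K ≤ 1 := by linarith
  -- pieces
  have piece : ∀ (n : ℕ) (a b : ℝ), p * n = a → a ≤ b → b ≤ p * (n + 1) → b ≤ 1 → ∫ z in a..b, J z ≤
      ((b ^ 2 - a ^ 2) - 2 * p * n * (b - a)) * g (n + 1) + (2 * p * (n + 1) * (b - a) - (b ^ 2 - a ^ 2)) * g n := by
    intro n a b ha hab hb hb1
    have ha0 : 0 ≤ a := by rw [← ha]; positivity
    have h1 := intervalIntegral.integral_mono_on_of_le_Ioo hab (hJi a b ha0 hab)
      (g := fun z => (2 * g (n + 1) - 2 * g n) * z + (2 * p * (n + 1) * g n - 2 * p * n * g (n + 1)))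
      (Continuous.intervalIntegrable (by fun_prop) _ _) (fun z hz => by
        have h2 := comb1 hm h0 hM g hp H n (z := z) (by linarith [hz.2]) (by linarith [hz.1]) (by linarith [hz.2])
        refine h2.trans (le_of_eq ?_)
        ring)
    rw [int_lin] at h1
    refine h1.trans (le_of_eq ?_)
    ring
  have e1 : ∫ z in (0 : ℝ)..1, J z = (∫ z in (0 : ℝ)..(p * K), J z) + ∫ z in (p * K)..1, J z :=
    (intervalIntegral.integral_add_adjacent_intervals (hJi _ _ le_rfl hpK) (hJi _ _ hpK hpK1)).symm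
  have e2 : ∫ z in (0 : ℝ)..(p * K), J z = ∑ n ∈ Finset.range K, ∫ z in (p * n)..(p * (n + 1 : ℕ)), J z := by
    have h1 := intervalIntegral.sum_integral_adjacent_intervals (f := J) (μ := volume) (a := fun m : ℕ => p * m) (n := K)
      (fun m _ => hJi _ _ (by positivity) (mul_le_mul_of_nonneg_left (by push_cast; linarith) hp.le))
    simp only [Nat.cast_zero, mul_zero] at h1
    exact h1.symm
  have b1 : ∀ n ∈ Finset.range K, ∫ z in (p * n)..(p * (n + 1 : ℕ)), J z ≤ p ^ 2 * g (n + 1) + p ^ 2 * g n := by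
    intro n hn
    have hn' : (n : ℝ) + 1 ≤ K := by exact_mod_cast Finset.mem_range.1 hn
    have h1 := piece n (p * n) (p * (n + 1 : ℕ)) rfl (mul_le_mul_of_nonneg_left (by push_cast; linarith) hp.le) (by push_cast; linarith)
      (by push_cast; nlinarith)
    refine h1.trans (le_of_eq ?_)
    push_cast
    ring
  have b2 : ∫ z in (p * K)..1, J z ≤ v ^ 2 * g (K + 1) + (2 * p * v - v ^ 2) * g K := by
    have h1 := piece K (p * K) 1 rfl hpK1 (by linarith) le_rfl
    refine h1.trans (le_of_eq ?_)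
    have e3 : v = 1 - p * K := by linarith
    rw [e3]
    ring
  have e4 : ∑ n ∈ Finset.range K, (p ^ 2 * g (n + 1) + p ^ 2 * g n) = 2 * p ^ 2 * ∑ s ∈ Finset.range K, g s + p ^ 2 * g K := by
    have h1 : ∑ n ∈ Finset.range K, g (n + 1) = ∑ n ∈ Finset.range K, g n + g K := by
      have h2 := Finset.sum_range_succ' g K
      have h3 := Finset.sum_range_succ g K
      rw [h3, hg0] at h2
      linarith
    rw [Finset.sum_add_distrib, ← Finset.mul_sum, ← Finset.mul_sum, h1]
    ring
  have b3 := Finset.sum_le_sum b1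
  rw [e4] at b3
  show ∫ z in (0 : ℝ)..1, J z ≤ _
  rw [e1, e2]
  linarith

/-- layer cake -/
lemma layer (hm : Measurable h) (h0 : ∀ x, 0 ≤ h x) (hM : ∀ x, h x ≤ M) :
    ∫ w in Ioo (-1 : ℝ) 1, (1 - |w|) * h w = ∫ z in (0 : ℝ)..1, (∫ w in (-z)..z, h w) := by
  set ρ : Measure ℝ := volume.restrict (Ioo (-1 : ℝ) 1) with hρ
  set σ : Measure ℝ := volume.restrict (Ioo (0 : ℝ) 1) with hσ
  haveI : IsFiniteMeasure ρ := ⟨by rw [hρ, Measure.restrict_apply_univ, Real.volume_Ioo]; exact ENNReal.ofReal_lt_top⟩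
  haveI : IsFiniteMeasure σ := ⟨by rw [hσ, Measure.restrict_apply_univ, Real.volume_Ioo]; exact ENNReal.ofReal_lt_top⟩
  set S : Set (ℝ × ℝ) := {x | |x.2| < x.1} with hS
  have hSm : MeasurableSet S := measurableSet_lt (by fun_prop) (by fun_prop)
  set f : ℝ → ℝ → ℝ := fun z w => S.indicator (fun x => h x.2) (z, w) with hf
  have hfm : Measurable (Function.uncurry f) := (hm.comp measurable_snd).indicator hSm
  have hfi : Integrable (Function.uncurry f) (σ.prod ρ) := by
    refine Integrable.of_bound hfm.aestronglyMeasurable M (Eventually.of_forall fun x => ?_)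
    have h1 : 0 ≤ Function.uncurry f x := by
      show 0 ≤ S.indicator (fun x : ℝ × ℝ => h x.2) (x.1, x.2)
      exact indicator_nonneg (fun (x : ℝ × ℝ) _ => h0 x.2) _
    rw [Real.norm_of_nonneg h1]
    show S.indicator (fun x : ℝ × ℝ => h x.2) (x.1, x.2) ≤ M
    by_cases hx : (x.1, x.2) ∈ S
    · rw [indicator_of_mem hx]; exact hM _
    · rw [indicator_of_notMem hx]; exact (h0 0).trans (hM 0)
  have hswap := integral_integral_swap hfi
  have e1 : ∫ w, (∫ z, f z w ∂σ) ∂ρ = ∫ w in Ioo (-1 : ℝ) 1, (1 - |w|) * h w := by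
    refine setIntegral_congr_fun measurableSet_Ioo fun w hw => ?_
    have haw : |w| < 1 := abs_lt.2 hw
    have h1 : ∀ z, f z w = (Ioi |w|).indicator (fun _ => h w) z := by
      intro z
      simp only [hf]
      by_cases hz : |w| < z
      · rw [indicator_of_mem (show (z, w) ∈ S from hz), indicator_of_mem (show z ∈ Ioi |w| from hz)]
      · rw [indicator_of_notMem (show (z, w) ∉ S from hz), indicator_of_notMem (show z ∉ Ioi |w| from hz)]
    show ∫ z, f z w ∂σ = (1 - |w|) * h w
    simp_rw [h1]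
    rw [integral_indicator measurableSet_Ioi, setIntegral_const, smul_eq_mul, hσ]
    congr 1
    rw [measureReal_restrict_apply measurableSet_Ioi]
    have h2 : Ioi |w| ∩ Ioo 0 1 = Ioo |w| 1 := by
      ext x
      simp only [mem_inter_iff, mem_Ioi, mem_Ioo]
      constructor
      · rintro ⟨h3, _, h5⟩; exact ⟨h3, h5⟩
      · rintro ⟨h3, h5⟩; exact ⟨h3, lt_of_le_of_lt (abs_nonneg w) h3, h5⟩
    rw [h2, Real.volume_real_Ioo_of_le haw.le]
  have e2 : ∫ z, (∫ w, f z w ∂ρ) ∂σ = ∫ z in (0 : ℝ)..1, (∫ w in (-z)..z, h w) := by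
    rw [intervalIntegral.integral_of_le zero_le_one, integral_Ioc_eq_integral_Ioo, hσ]
    refine setIntegral_congr_fun measurableSet_Ioo fun z hz => ?_
    have h1 : ∀ w, f z w = (Ioo (-z) z).indicator h w := by
      intro w
      simp only [hf]
      by_cases hw : |w| < z
      · rw [indicator_of_mem (show (z, w) ∈ S from hw), indicator_of_mem (show w ∈ Ioo (-z) z from abs_lt.1 hw)]
      · rw [indicator_of_notMem (show (z, w) ∉ S from hw), indicator_of_notMem (show w ∉ Ioo (-z) z from fun h => hw (abs_lt.2 h))]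
    show ∫ w, f z w ∂ρ = ∫ w in (-z)..z, h w
    simp_rw [h1]
    rw [integral_indicator measurableSet_Ioo, hρ, Measure.restrict_restrict measurableSet_Ioo,
      intervalIntegral.integral_of_le (by linarith [hz.1]), integral_Ioc_eq_integral_Ioo]
    congr 2
    rw [inter_eq_left]
    intro x hx
    exact ⟨by linarith [hx.1, hz.2], by linarith [hx.2, hz.2]⟩
  rw [← e1, ← e2, hswap]

end comb

lemma shiftIco (a x l : ℝ) : {t : ℝ | x + t ∈ Ico a (a + l)} = Ico (a - x) (a - x + l) := by
  ext t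
  simp only [mem_setOf_eq, mem_Ico]
  constructor <;> rintro ⟨h1, h2⟩ <;> constructor <;> linarith

lemma shift_meas (ν : Measure ℝ) [IsFiniteMeasure ν] (a l : ℝ) : Measurable (fun x : ℝ => ν (Ico (a - x) (a - x + l))) := by
  have hS : MeasurableSet {x : ℝ × ℝ | x.1 + x.2 ∈ Ico a (a + l)} := measurable_fst.add measurable_snd measurableSet_Ico
  have h := measurable_measure_prodMk_left (ν := ν) hS
  have e : (fun x : ℝ => ν (Ico (a - x) (a - x + l))) = fun x : ℝ => ν (Prod.mk x ⁻¹' {x : ℝ × ℝ | x.1 + x.2 ∈ Ico a (a + l)}) := by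
    funext x
    rw [← shiftIco a x l]
    rfl
  rw [e]
  exact h

lemma conv_real (ν : Measure ℝ) [IsFiniteMeasure ν] (q : ℝ → ℝ) (hq : Measurable q) (a l : ℝ) :
    (Measure.conv (tri.map q) ν).real (Ico a (a + l)) =
      ∫ w in Ioo (-1 : ℝ) 1, (1 - |w|) * ν.real (Ico (a - q w) (a - q w + l)) := by
  have hm := shift_meas ν a l
  have hadd : Measurable (fun x : ℝ × ℝ => x.1 + x.2) := measurable_fst.add measurable_snd
  haveI : SFinite (tri.map q) := by unfold tri; infer_instance
  have h1 : (Measure.conv (tri.map q) ν) (Ico a (a + l)) =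
      ∫⁻ w in Ioo (-1 : ℝ) 1, ENNReal.ofReal (1 - |w|) * ν (Ico (a - q w) (a - q w + l)) := by
    unfold Measure.conv
    rw [Measure.map_apply hadd measurableSet_Ico, Measure.prod_apply (hadd measurableSet_Ico)]
    have e1 : ∀ x : ℝ, ν (Prod.mk x ⁻¹' ((fun x : ℝ × ℝ => x.1 + x.2) ⁻¹' Ico a (a + l))) = ν (Ico (a - x) (a - x + l)) := by
      intro x
      rw [← shiftIco a x l]
      rfl
    simp_rw [e1]
    rw [lintegral_map hm hq]
    unfold tri
    have h2 := lintegral_withDensity_eq_lintegral_mul (volume.restrict (Ioo (-1 : ℝ) 1))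
      (f := fun w => ENNReal.ofReal (1 - |w|)) (by fun_prop) (g := fun w => ν (Ico (a - q w) (a - q w + l))) (hm.comp hq)
    rw [h2]
    rfl
  rw [Measure.real, h1, integral_eq_lintegral_of_nonneg_ae]
  · congr 1
    refine setLIntegral_congr_fun measurableSet_Ioo fun w hw => ?_
    have haw : |w| < 1 := abs_lt.2 hw
    show ENNReal.ofReal (1 - |w|) * ν (Ico (a - q w) (a - q w + l)) = ENNReal.ofReal ((1 - |w|) * ν.real (Ico (a - q w) (a - q w + l)))
    rw [ENNReal.ofReal_mul (by linarith), ofReal_measureReal]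
  · refine (ae_restrict_mem measurableSet_Ioo).mono fun w hw => ?_
    have haw : |w| < 1 := abs_lt.2 hw
    show 0 ≤ (1 - |w|) * ν.real (Ico (a - q w) (a - q w + l))
    exact mul_nonneg (by linarith) measureReal_nonneg
  · refine (Measurable.mul (by fun_prop) ?_).aestronglyMeasurable
    exact (hm.comp hq).ennreal_toReal

theorem t_INTEG : P_CHAIN → P_INTEG := by
  intro hC ν _ l c hl hCB K u v hK hu hv huv q hqm hqmono hqs k y hy
  have hKr : (1 : ℝ) ≤ K := by exact_mod_cast hK
  set p := u + v with hp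
  have hp0 : 0 < p := by
    by_contra hc
    have h1 : u = 0 := by linarith
    have h2 : v = 0 := by linarith
    rw [h1, h2] at huv
    norm_num at huv
  set g : ℕ → ℝ := fun s => ∑ r ∈ Finset.range (min s k), c (s + k - 1 - 2 * r) with hg
  set h : ℝ → ℝ := fun w => ∑ j ∈ Finset.range k, ν.real (Ico (y j - q w) (y j - q w + l)) with hh
  have hterm : ∀ a, Measurable (fun w : ℝ => ν.real (Ico (a - q w) (a - q w + l))) := fun a =>
    ((shift_meas ν a l).comp hqm).ennreal_toReal
  have hm : Measurable h := Finset.measurable_sum _ fun j _ => hterm (y j)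
  have h0 : ∀ x, 0 ≤ h x := fun x => Finset.sum_nonneg fun j _ => measureReal_nonneg
  have hM : ∀ x, h x ≤ k * ν.real univ := by
    intro x
    refine (Finset.sum_le_sum fun j _ => measureReal_mono (subset_univ _)).trans ?_
    rw [Finset.sum_const, Finset.card_range, nsmul_eq_mul]
  have H : ∀ (s : ℕ) (w0 : ℝ), -1 < w0 → (∀ m : ℕ, m < s → w0 + 2 * p * m < 1) →
      ∑ m ∈ Finset.range s, h (w0 + 2 * p * m) ≤ g s := by
    intro s w0 hw0 hs
    refine hC ν l c hl hCB s k (fun m => q (w0 + 2 * p * m)) y (fun m hm' => ?_) hy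
    have h1 := hs (m + 1) hm'
    have h2 : 0 ≤ 2 * p * m := by positivity
    have h3 := hqs (w0 + 2 * p * m) (by linarith) (by push_cast at h1; linarith)
    refine h3.trans (le_of_eq ?_)
    congr 1
    push_cast; ring
  have hg0 : g 0 = 0 := by simp [hg]
  have hmain := comb2 hm h0 hM g hg0 hp0 hv (by linarith) hK (by rw [hp]; linarith) H
  rw [← layer hm h0 hM] at hmain
  have e1 : ∑ j ∈ Finset.range k, (Measure.conv (tri.map q) ν).real (Ico (y j) (y j + l)) = ∫ w in Ioo (-1 : ℝ) 1, (1 - |w|) * h w := by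
    rw [Finset.sum_congr rfl fun j _ => conv_real ν q hqm (y j) l, ← integral_finset_sum]
    · refine setIntegral_congr_fun measurableSet_Ioo fun w _ => ?_
      show ∑ j ∈ Finset.range k, (1 - |w|) * ν.real (Ico (y j - q w) (y j - q w + l)) = (1 - |w|) * h w
      rw [hh, Finset.mul_sum]
    · intro j _
      haveI : IsFiniteMeasure (volume.restrict (Ioo (-1 : ℝ) 1)) := ⟨by rw [Measure.restrict_apply_univ, Real.volume_Ioo]; exact ENNReal.ofReal_lt_top⟩
      refine Integrable.of_bound (Measurable.mul (by fun_prop) (hterm (y j))).aestronglyMeasurable (ν.real univ) ?_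
      refine (ae_restrict_mem measurableSet_Ioo).mono fun w hw => ?_
      have haw : |w| < 1 := abs_lt.2 hw
      have h1 : 0 ≤ 1 - |w| := by linarith
      rw [Real.norm_of_nonneg (mul_nonneg h1 measureReal_nonneg)]
      calc (1 - |w|) * ν.real (Ico (y j - q w) (y j - q w + l)) ≤ 1 * ν.real univ :=
            mul_le_mul (by linarith [abs_nonneg w]) (measureReal_mono (subset_univ _)) measureReal_nonneg (by norm_num)
        _ = ν.real univ := one_mul _
  rw [e1]
  refine hmain.trans (le_of_eq ?_)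
  show _ = ∑ s ∈ Finset.range (K + 2), wgt K u v s * g s
  rw [Finset.sum_range_succ, Finset.sum_range_succ]
  have e2 : ∑ s ∈ Finset.range K, wgt K u v s * g s = 2 * p ^ 2 * ∑ s ∈ Finset.range K, g s := by
    rw [Finset.mul_sum]
    refine Finset.sum_congr rfl fun s hs => ?_
    rw [Finset.mem_range] at hs
    unfold wgt
    by_cases h1 : s = 0
    · subst h1
      rw [if_pos rfl, hg0]; ring
    · rw [if_neg h1, if_pos hs]
  have e3 : wgt K u v K = p ^ 2 + 2 * p * v - v ^ 2 := by
    unfold wgt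
    rw [if_neg (by omega), if_neg (lt_irrefl K), if_pos rfl, hp]
    ring
  have e4 : wgt K u v (K + 1) = v ^ 2 := by
    unfold wgt
    rw [if_neg (by omega), if_neg (by omega), if_neg (by omega), if_pos rfl]
  rw [e2, e3, e4]

end Pool.Agent.Q247.HEA
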