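import Pool.Agent.Q291.HEA.Stm2

/-!
# Project HEA, job LAWX (helper247): the law of the zero temperature series coupling
-/

set_option autoImplicit false

namespace Pool.Agent.Q247.HEA

open MeasureTheory Set Filter Topology Pool.Agent.Q291.HEA

lemma F0_pos {x y : ℝ} (h : |x| ≤ y) : F0 x y = x := by
  unfold F0
  have h1 := abs_le.1 h
  rw [abs_of_nonneg (by linarith), abs_of_nonpos (by linarith)]
  ring

lemma F0_neg {x y : ℝ} (h : |x| ≤ -y) : F0 x y = -x := by
  unfold F0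
  have h1 := abs_le.1 h
  rw [abs_of_nonpos (by linarith), abs_of_nonneg (by linarith)]
  ring

lemma F0_comm (x y : ℝ) : F0 x y = F0 y x := by
  unfold F0
  rw [add_comm x y, abs_sub_comm x y]

lemma F0_meas : Measurable (fun z : ℝ × ℝ => F0 z.1 z.2) := by
  unfold F0
  fun_prop

/-- Lebesgue measure on `(-1, 1)` -/
noncomputable def rho : Measure ℝ := volume.restrict (Ioo (-1 : ℝ) 1)

instance : IsFiniteMeasure rho := ⟨by
  unfold rho
  rw [Measure.restrict_apply_univ, Real.volume_Ioo]; exact ENNReal.ofReal_lt_top⟩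

lemma rho_neg : MeasurePreserving (fun x : ℝ => -x) rho rho := by
  unfold rho
  have h := (Measure.measurePreserving_neg (volume : Measure ℝ)).restrict_preimage (s := Ioo (-1 : ℝ) 1) measurableSet_Ioo
  have e : (fun x : ℝ => -x) ⁻¹' Ioo (-1 : ℝ) 1 = Ioo (-1) 1 := by
    ext x
    simp only [mem_preimage, mem_Ioo]
    constructor <;> rintro ⟨h1, h2⟩ <;> constructor <;> linarith
  have h' : MeasurePreserving (fun x : ℝ => -x) (volume.restrict ((fun x : ℝ => -x) ⁻¹' Ioo (-1 : ℝ) 1)) (volume.restrict (Ioo (-1 : ℝ) 1)) := h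
  rw [e] at h'
  exact h'

open Classical in
lemma slice (q : ℝ → ℝ) (hmono : MonotoneOn q (Ioo (-1) 1)) {A : Set ℝ} {v : ℝ}
    (hv : v ∈ Ioo (-1 : ℝ) 1) (hodd : q (-v) = -q v) :
    rho {v' | |v| < |v'| ∧ F0 (q v) (q v') ∈ A} =
      ENNReal.ofReal (1 - |v|) * (A.indicator 1 (q v) + A.indicator 1 (q (-v))) := by
  have hv' : -v ∈ Ioo (-1 : ℝ) 1 := ⟨by linarith [hv.2], by linarith [hv.1]⟩
  have hav : |v| < 1 := abs_lt.2 ⟨hv.1, hv.2⟩
  have h0 : 0 ≤ |v| := abs_nonneg v
  have hpos : ∀ v' ∈ Ioo |v| 1, F0 (q v) (q v') = q v := by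
    intro v' h'
    have hm : v' ∈ Ioo (-1 : ℝ) 1 := ⟨by linarith [h'.1], h'.2⟩
    have h1 := hmono hv hm (by linarith [h'.1, le_abs_self v])
    have h2 := hmono hv' hm (by linarith [h'.1, neg_abs_le v])
    rw [hodd] at h2
    exact F0_pos (abs_le.2 ⟨by linarith, h1⟩)
  have hneg : ∀ v' ∈ Ioo (-1) (-|v|), F0 (q v) (q v') = q (-v) := by
    intro v' h'
    have hm : v' ∈ Ioo (-1 : ℝ) 1 := ⟨h'.1, by linarith [h'.2]⟩
    have h1 := hmono hm hv (by linarith [h'.2, neg_abs_le v])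
    have h2 := hmono hm hv' (by linarith [h'.2, le_abs_self v])
    rw [hodd] at h2 ⊢
    exact F0_neg (abs_le.2 ⟨by linarith, by linarith⟩)
  have hset : {v' | |v| < |v'| ∧ F0 (q v) (q v') ∈ A} ∩ Ioo (-1) 1 =
      (Ioo |v| 1 ∩ {_v' | q v ∈ A}) ∪ (Ioo (-1) (-|v|) ∩ {_v' | q (-v) ∈ A}) := by
    ext v'
    simp only [mem_inter_iff, mem_setOf_eq, mem_union]
    constructor
    · rintro ⟨⟨h1, h2⟩, h3⟩
      rcases le_or_gt 0 v' with h4 | h4
      · rw [abs_of_nonneg h4] at h1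
        left
        have h5 : v' ∈ Ioo |v| 1 := ⟨h1, h3.2⟩
        rw [hpos v' h5] at h2
        exact ⟨h5, h2⟩
      · rw [abs_of_neg h4] at h1
        right
        have h5 : v' ∈ Ioo (-1) (-|v|) := ⟨h3.1, by linarith⟩
        rw [hneg v' h5] at h2
        exact ⟨h5, h2⟩
    · rintro (⟨h5, h2⟩ | ⟨h5, h2⟩)
      · refine ⟨⟨?_, ?_⟩, ?_⟩
        · rw [abs_of_nonneg (show 0 ≤ v' by linarith [h5.1])]; exact h5.1
        · rw [hpos v' h5]; exact h2
        · exact ⟨by linarith [h5.1], h5.2⟩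
      · refine ⟨⟨?_, ?_⟩, ?_⟩
        · rw [abs_of_nonpos (show v' ≤ 0 by linarith [h5.2])]; linarith [h5.2]
        · rw [hneg v' h5]; exact h2
        · exact ⟨h5.1, by linarith [h5.2]⟩
  unfold rho
  rw [Measure.restrict_apply' measurableSet_Ioo, hset]
  have hdisj : Disjoint (Ioo |v| 1 ∩ {_v' | q v ∈ A}) (Ioo (-1) (-|v|) ∩ {_v' | q (-v) ∈ A}) := by
    rw [Set.disjoint_left]
    rintro x ⟨h1, _⟩ ⟨h2, _⟩
    linarith [h1.1, h2.2]
  rw [measure_union hdisj (measurableSet_Ioo.inter (MeasurableSet.const _))]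
  have e1 : volume (Ioo |v| 1 ∩ {_v' : ℝ | q v ∈ A}) = ENNReal.ofReal (1 - |v|) * A.indicator 1 (q v) := by
    by_cases h : q v ∈ A
    · have : {_v' : ℝ | q v ∈ A} = univ := by ext; simp [h]
      rw [this, inter_univ, Real.volume_Ioo, indicator_of_mem h]; simp
    · have : {_v' : ℝ | q v ∈ A} = ∅ := by ext; simp [h]
      rw [this, inter_empty, indicator_of_notMem h]; simp
  have e2 : volume (Ioo (-1) (-|v|) ∩ {_v' : ℝ | q (-v) ∈ A}) = ENNReal.ofReal (1 - |v|) * A.indicator 1 (q (-v)) := by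
    by_cases h : q (-v) ∈ A
    · have : {_v' : ℝ | q (-v) ∈ A} = univ := by ext; simp [h]
      rw [this, inter_univ, Real.volume_Ioo, indicator_of_mem h]
      have : -|v| - -1 = 1 - |v| := by ring
      rw [this]; simp
    · have : {_v' : ℝ | q (-v) ∈ A} = ∅ := by ext; simp [h]
      rw [this, inter_empty, indicator_of_notMem h]; simp
  rw [e1, e2, mul_add]

theorem t_LAWX : P_LAWX := by
  intro μ _ q hq hmono hodd hμ
  have hHm : Measurable (fun z : ℝ × ℝ => F0 (q z.1) (q z.2)) := F0_meas.comp ((hq.comp measurable_fst).prodMk (hq.comp measurable_snd))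
  have hser : ser F0 μ = ((ENNReal.ofReal (1 / 2) • rho).prod (ENNReal.ofReal (1 / 2) • rho)).map (fun z : ℝ × ℝ => F0 (q z.1) (q z.2)) := by
    unfold ser
    haveI : SFinite (ENNReal.ofReal (1 / 2) • rho) := inferInstance
    have h1 : μ.prod μ = ((ENNReal.ofReal (1 / 2) • rho).prod (ENNReal.ofReal (1 / 2) • rho)).map (Prod.map q q) := by
      rw [← Measure.map_prod_map _ _ hq hq]
      unfold rho
      rw [← hμ]
    rw [h1, Measure.map_map F0_meas (hq.prodMap hq)]
    rfl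
  ext A hA
  rw [hser, Measure.map_apply hHm hA, Measure.map_apply hq hA]
  unfold tri
  rw [withDensity_apply _ (hq hA)]
  set S : Set (ℝ × ℝ) := (fun z : ℝ × ℝ => F0 (q z.1) (q z.2)) ⁻¹' A with hS
  have hSm : MeasurableSet S := hHm hA
  -- the two halves
  set S1 : Set (ℝ × ℝ) := S ∩ {z | |z.1| < |z.2|} with hS1
  set S2 : Set (ℝ × ℝ) := S ∩ {z | |z.2| < |z.1|} with hS2
  have hm1 : MeasurableSet {z : ℝ × ℝ | |z.1| < |z.2|} := measurableSet_lt (by fun_prop) (by fun_prop)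
  have hm2 : MeasurableSet {z : ℝ × ℝ | |z.2| < |z.1|} := measurableSet_lt (by fun_prop) (by fun_prop)
  have hS1m : MeasurableSet S1 := hSm.inter hm1
  have hS2m : MeasurableSet S2 := hSm.inter hm2
  have hgm : Measurable (fun v : ℝ => A.indicator (1 : ℝ → ENNReal) (q v)) := (measurable_one.indicator hA).comp hq
  have hint1 : (rho.prod rho) S1 = 2 * ∫⁻ v, ENNReal.ofReal (1 - |v|) * A.indicator 1 (q v) ∂rho := by
    rw [Measure.prod_apply hS1m]
    have hodd' : ∀ᵐ v ∂rho, v ∈ Ioo (-1 : ℝ) 1 ∧ q (-v) = -q v := by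
      have h1 : ∀ᵐ v ∂rho, v ∈ Ioo (-1 : ℝ) 1 := ae_restrict_mem measurableSet_Ioo
      filter_upwards [h1, hodd] with v h2 h3
      exact ⟨h2, h3⟩
    have h1 : ∫⁻ v, rho (Prod.mk v ⁻¹' S1) ∂rho = ∫⁻ v, (ENNReal.ofReal (1 - |v|) * A.indicator 1 (q v) +
        ENNReal.ofReal (1 - |v|) * A.indicator 1 (q (-v))) ∂rho := by
      refine lintegral_congr_ae ?_
      filter_upwards [hodd'] with v hv
      have h2 := slice q hmono (A := A) hv.1 hv.2
      have h3 : Prod.mk v ⁻¹' S1 = {v' | |v| < |v'| ∧ F0 (q v) (q v') ∈ A} := by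
        ext v'
        simp only [hS1, hS, mem_preimage, mem_inter_iff, mem_setOf_eq]
        tauto
      rw [h3, h2, mul_add]
    rw [h1, lintegral_add_left (by fun_prop)]
    have h4 : ∫⁻ v, ENNReal.ofReal (1 - |v|) * A.indicator 1 (q (-v)) ∂rho =
        ∫⁻ v, ENNReal.ofReal (1 - |v|) * A.indicator 1 (q v) ∂rho := by
      have h5 := rho_neg.lintegral_comp (f := fun v => ENNReal.ofReal (1 - |v|) * A.indicator (1 : ℝ → ENNReal) (q v)) (by fun_prop)
      rw [← h5]
      refine lintegral_congr fun v => ?_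
      rw [abs_neg]
    rw [h4, two_mul]
  have hint2 : (rho.prod rho) S2 = (rho.prod rho) S1 := by
    have h1 : (rho.prod rho) S2 = ((rho.prod rho).map Prod.swap) S2 := by rw [Measure.prod_swap]
    rw [h1, Measure.map_apply measurable_swap hS2m]
    congr 1
    ext z
    simp only [hS1, hS2, hS, mem_preimage, mem_inter_iff, mem_setOf_eq, Prod.fst_swap, Prod.snd_swap]
    rw [F0_comm]
  have hdiag : (rho.prod rho) {z : ℝ × ℝ | |z.1| = |z.2|} = 0 := by
    have hm : MeasurableSet {z : ℝ × ℝ | |z.1| = |z.2|} := measurableSet_eq_fun (by fun_prop) (by fun_prop)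
    rw [Measure.measure_prod_null hm]
    refine Eventually.of_forall fun v => ?_
    have h1 : Prod.mk v ⁻¹' {z : ℝ × ℝ | |z.1| = |z.2|} ⊆ {v, -v} := by
      intro v' hv'
      have : |v| = |v'| := hv'
      rcases abs_eq_abs.1 this with h | h
      · left; exact h.symm
      · right
        rw [mem_singleton_iff]; linarith
    have h2 : rho ({v, -v} : Set ℝ) = 0 := by
      unfold rho
      exact le_antisymm ((Measure.restrict_apply_le _ _).trans (by
        rw [((Set.toFinite ({v, -v} : Set ℝ)).measure_zero volume)])) bot_le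
    exact le_antisymm ((measure_mono h1).trans h2.le) bot_le
  have hsum : (rho.prod rho) S = (rho.prod rho) S1 + (rho.prod rho) S2 := by
    have hd : Disjoint S1 S2 := by
      rw [Set.disjoint_left]
      rintro z ⟨_, h1⟩ ⟨_, h2⟩
      have h1' : |z.1| < |z.2| := h1
      have h2' : |z.2| < |z.1| := h2
      exact absurd h1' (not_lt.2 h2'.le)
    rw [← measure_union hd hS2m]
    refine le_antisymm ?_ (measure_mono (union_subset inter_subset_left inter_subset_left))
    have h1 : S ⊆ (S1 ∪ S2) ∪ {z : ℝ × ℝ | |z.1| = |z.2|} := by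
      intro z hz
      rcases lt_trichotomy |z.1| |z.2| with h | h | h
      · left; left; exact ⟨hz, h⟩
      · right; exact h
      · left; right; exact ⟨hz, h⟩
    calc (rho.prod rho) S ≤ (rho.prod rho) ((S1 ∪ S2) ∪ {z : ℝ × ℝ | |z.1| = |z.2|}) := measure_mono h1
      _ ≤ (rho.prod rho) (S1 ∪ S2) + (rho.prod rho) {z : ℝ × ℝ | |z.1| = |z.2|} := measure_union_le _ _
      _ = _ := by rw [hdiag, add_zero]
  rw [Measure.prod_smul_left, Measure.prod_smul_right, Measure.smul_apply, Measure.smul_apply, hsum, hint2, hint1, smul_eq_mul, smul_eq_mul]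
  have hfin : ∫⁻ v, ENNReal.ofReal (1 - |v|) * A.indicator 1 (q v) ∂rho = ∫⁻ v in q ⁻¹' A, ENNReal.ofReal (1 - |v|) ∂rho := by
    rw [← lintegral_indicator (hq hA)]
    refine lintegral_congr fun v => ?_
    by_cases h : q v ∈ A
    · rw [indicator_of_mem h, indicator_of_mem (show v ∈ q ⁻¹' A from h)]; simp
    · rw [indicator_of_notMem h, indicator_of_notMem (show v ∉ q ⁻¹' A from h)]; simp
  rw [hfin]
  unfold rho
  set T := ∫⁻ v in q ⁻¹' A, ENNReal.ofReal (1 - |v|) ∂(volume.restrict (Ioo (-1 : ℝ) 1)) with hT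
  have e2 : ENNReal.ofReal (1 / 2) * 2 = 1 := by
    have : (2 : ENNReal) = ENNReal.ofReal 2 := by simp
    rw [this, ← ENNReal.ofReal_mul (by norm_num)]
    norm_num
  calc ENNReal.ofReal (1 / 2) * (ENNReal.ofReal (1 / 2) * (2 * T + 2 * T)) =
        (ENNReal.ofReal (1 / 2) * 2) * (ENNReal.ofReal (1 / 2) * 2) * T := by ring
    _ = T := by rw [e2, one_mul, one_mul]

end Pool.Agent.Q247.HEA
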