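import Pool.Agent.Q291.HEA.Stm2

/-!
# Project HEA, job QUANT (helper247): the quantile function of a symmetric law
-/

set_option autoImplicit false

namespace Pool.Agent.Q247.HEA

open MeasureTheory Set Filter Topology ProbabilityTheory Pool.Agent.Q291.HEA

/-- the lower quantile -/
noncomputable def q0 (μ : Measure ℝ) (t : ℝ) : ℝ := sInf {x | t ≤ cdf μ x}

section

variable {μ : Measure ℝ} [IsProbabilityMeasure μ]

lemma q0_mem {t : ℝ} (h0 : 0 < t) (h1 : t < 1) : t ≤ cdf μ (q0 μ t) := by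
  have hne : {x | t ≤ cdf μ x}.Nonempty := by
    obtain ⟨x, hx⟩ := ((tendsto_cdf_atTop μ).eventually (lt_mem_nhds h1)).exists
    exact ⟨x, hx.le⟩
  have hbd : BddBelow {x | t ≤ cdf μ x} := by
    obtain ⟨x, hx⟩ := ((tendsto_cdf_atBot μ).eventually (gt_mem_nhds h0)).exists
    refine ⟨x, fun y hy => ?_⟩
    by_contra hc
    have h2 := monotone_cdf μ (not_le.1 hc).le
    have h3 : t ≤ cdf μ y := hy
    linarith
  -- right continuity
  have hr : Tendsto (cdf μ) (𝓝[>] (q0 μ t)) (𝓝 (cdf μ (q0 μ t))) :=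
    ((cdf μ).right_continuous (q0 μ t)).mono_left (nhdsWithin_mono _ Ioi_subset_Ici_self)
  refine ge_of_tendsto hr ?_
  refine eventually_nhdsWithin_of_forall fun y hy => ?_
  obtain ⟨x, hx, hxy⟩ := (csInf_lt_iff hbd hne).1 (show sInf {x | t ≤ cdf μ x} < y from hy)
  exact le_trans hx (monotone_cdf μ hxy.le)

lemma q0_le_iff {t x : ℝ} (h0 : 0 < t) (h1 : t < 1) : q0 μ t ≤ x ↔ t ≤ cdf μ x := by
  constructor
  · intro h
    exact (q0_mem h0 h1).trans (monotone_cdf μ h)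
  · intro h
    have hbd : BddBelow {x | t ≤ cdf μ x} := by
      obtain ⟨x, hx⟩ := ((tendsto_cdf_atBot μ).eventually (gt_mem_nhds h0)).exists
      refine ⟨x, fun y hy => ?_⟩
      by_contra hc
      have h2 := monotone_cdf μ (not_le.1 hc).le
      have h3 : t ≤ cdf μ y := hy
      linarith
    exact csInf_le hbd h

lemma q0_mono {s t : ℝ} (h0 : 0 < s) (hst : s ≤ t) (h1 : t < 1) : q0 μ s ≤ q0 μ t := by
  rw [q0_le_iff h0 (lt_of_le_of_lt hst h1)]
  exact hst.trans (q0_mem (lt_of_lt_of_le h0 hst) h1)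

open Classical in
/-- the quantile function on `(-1, 1)` -/
noncomputable def qq (μ : Measure ℝ) (w : ℝ) : ℝ := if w ∈ Ioo (-1 : ℝ) 1 then q0 μ ((1 + w) / 2) else 0

lemma qq_of_mem {w : ℝ} (h : w ∈ Ioo (-1 : ℝ) 1) : qq μ w = q0 μ ((1 + w) / 2) := if_pos h

lemma qq_le_iff {w x : ℝ} (h : w ∈ Ioo (-1 : ℝ) 1) : qq μ w ≤ x ↔ w ≤ 2 * cdf μ x - 1 := by
  rw [qq_of_mem h, q0_le_iff (by linarith [h.1]) (by linarith [h.2])]
  constructor <;> intro h2 <;> linarith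

lemma qq_mono : MonotoneOn (qq μ) (Ioo (-1) 1) := by
  intro a ha b hb hab
  rw [qq_of_mem ha, qq_of_mem hb]
  exact q0_mono (by linarith [ha.1]) (by linarith) (by linarith [hb.2])

lemma qq_preimage (x : ℝ) : qq μ ⁻¹' Iic x = (Ioo (-1) 1 ∩ Iic (2 * cdf μ x - 1)) ∪ ((Ioo (-1) 1)ᶜ ∩ {_w | (0 : ℝ) ≤ x}) := by
  ext w
  simp only [mem_preimage, mem_Iic, mem_union, mem_inter_iff, mem_compl_iff, mem_setOf_eq]
  by_cases hw : w ∈ Ioo (-1 : ℝ) 1
  · rw [qq_le_iff hw]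
    tauto
  · have : qq μ w = 0 := if_neg hw
    rw [this]
    tauto

lemma qq_meas : Measurable (qq μ) := by
  refine measurable_of_Iic fun x => ?_
  rw [qq_preimage]
  exact (measurableSet_Ioo.inter measurableSet_Iic).union (measurableSet_Ioo.compl.inter (MeasurableSet.const _))

lemma qq_law : μ = (ENNReal.ofReal (1 / 2) • volume.restrict (Ioo (-1 : ℝ) 1)).map (qq μ) := by
  haveI : IsFiniteMeasure (volume.restrict (Ioo (-1 : ℝ) 1)) := ⟨by
    rw [Measure.restrict_apply_univ, Real.volume_Ioo]; exact ENNReal.ofReal_lt_top⟩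
  haveI : IsFiniteMeasure (ENNReal.ofReal (1 / 2) • volume.restrict (Ioo (-1 : ℝ) 1)) := by
    refine ⟨?_⟩
    rw [Measure.smul_apply, smul_eq_mul]
    exact ENNReal.mul_lt_top ENNReal.ofReal_lt_top (measure_lt_top _ _)
  refine Measure.ext_of_Iic _ _ fun x => ?_
  rw [Measure.map_apply qq_meas measurableSet_Iic, Measure.smul_apply, Measure.restrict_apply (qq_meas measurableSet_Iic),
    qq_preimage]
  have e1 : ((Ioo (-1 : ℝ) 1 ∩ Iic (2 * cdf μ x - 1)) ∪ ((Ioo (-1) 1)ᶜ ∩ {_w | (0 : ℝ) ≤ x})) ∩ Ioo (-1) 1 =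
      Ioo (-1) 1 ∩ Iic (2 * cdf μ x - 1) := by
    ext w
    simp only [mem_union, mem_inter_iff, mem_compl_iff]
    tauto
  rw [e1]
  have hF0 := cdf_nonneg μ x
  have hF1 := cdf_le_one μ x
  have e2 : volume (Ioo (-1 : ℝ) 1 ∩ Iic (2 * cdf μ x - 1)) = ENNReal.ofReal (2 * cdf μ x) := by
    refine le_antisymm ?_ ?_
    · calc volume (Ioo (-1 : ℝ) 1 ∩ Iic (2 * cdf μ x - 1)) ≤ volume (Ioc (-1 : ℝ) (2 * cdf μ x - 1)) :=
            measure_mono fun w hw => ⟨hw.1.1, hw.2⟩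
        _ = ENNReal.ofReal (2 * cdf μ x) := by rw [Real.volume_Ioc]; congr 1; ring
    · calc ENNReal.ofReal (2 * cdf μ x) = volume (Ioo (-1 : ℝ) (2 * cdf μ x - 1)) := by rw [Real.volume_Ioo]; congr 1; ring
        _ ≤ volume (Ioo (-1 : ℝ) 1 ∩ Iic (2 * cdf μ x - 1)) := by
            refine measure_mono ?_
            intro w hw
            exact ⟨⟨hw.1, by linarith [hw.2]⟩, hw.2.le⟩
  rw [e2, smul_eq_mul, ← ENNReal.ofReal_mul (by norm_num)]
  have e3 : 1 / 2 * (2 * cdf μ x) = cdf μ x := by ring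
  rw [e3, cdf_eq_real, ofReal_measureReal]

lemma sym_cdf (hS : Sym μ) (y : ℝ) : cdf μ (-y) = μ.real (Ici y) := by
  rw [cdf_eq_real]
  have h : μ.real (Iic (-y)) = (μ.map (fun x => -x)).real (Iic (-y)) := by rw [hS]
  rw [h, map_measureReal_apply measurable_neg measurableSet_Iic]
  congr 1
  ext x
  simp only [mem_preimage, mem_Iic, mem_Ici]
  constructor <;> intro h2 <;> linarith

lemma real_Iio (y : ℝ) : μ.real (Iio y) = 1 - μ.real (Ici y) := by
  have := prob_compl_eq_one_sub (μ := μ) (measurableSet_Ici (a := y))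
  have h2 : (Ici y)ᶜ = Iio y := compl_Ici
  rw [← h2, measureReal_compl measurableSet_Ici]
  simp

/-- `q0 t ≤ - q0 (1 - t)` -/
lemma q0_sym1 (hS : Sym μ) {t : ℝ} (h0 : 0 < t) (h1 : t < 1) : q0 μ t ≤ -q0 μ (1 - t) := by
  refine le_of_forall_lt_imp_le_of_dense fun y hy => ?_
  have h2 : cdf μ y < t := by
    by_contra hc
    exact absurd ((q0_le_iff h0 h1).2 (not_lt.1 hc)) (not_le.2 hy)
  have h3 : q0 μ (1 - t) ≤ -y := by
    rw [q0_le_iff (by linarith) (by linarith), sym_cdf hS]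
    have h4 := real_Iio (μ := μ) y
    have h5 : μ.real (Iio y) ≤ cdf μ y := by
      rw [cdf_eq_real]; exact measureReal_mono Iio_subset_Iic_self
    linarith
  linarith

/-- `- q0 (1 - t) ≤ q0 t'` for `t < t'` -/
lemma q0_sym2 (hS : Sym μ) {t t' : ℝ} (h0 : 0 < t) (htt : t < t') (h1 : t' < 1) : -q0 μ (1 - t) ≤ q0 μ t' := by
  by_contra hc
  rw [not_le] at hc
  have h2 := q0_mem (μ := μ) (h0.trans htt) h1
  have h3 := q0_mem (μ := μ) (t := 1 - t) (by linarith) (by linarith)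
  have h4 := sym_cdf hS (-q0 μ (1 - t))
  rw [neg_neg] at h4
  have h5 := real_Iio (μ := μ) (-q0 μ (1 - t))
  have h6 : cdf μ (q0 μ t') ≤ μ.real (Iio (-q0 μ (1 - t))) := by
    rw [cdf_eq_real]
    exact measureReal_mono fun x hx => lt_of_le_of_lt hx hc
  linarith

lemma qq_sym1 (hS : Sym μ) {w : ℝ} (h : w ∈ Ioo (-1 : ℝ) 1) : qq μ w ≤ -qq μ (-w) := by
  have h' : -w ∈ Ioo (-1 : ℝ) 1 := ⟨by linarith [h.2], by linarith [h.1]⟩
  rw [qq_of_mem h, qq_of_mem h']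
  have := q0_sym1 hS (t := (1 + w) / 2) (by linarith [h.1]) (by linarith [h.2])
  have e : 1 - (1 + w) / 2 = (1 + -w) / 2 := by ring
  rw [e] at this
  exact this

lemma qq_sym2 (hS : Sym μ) {w w' : ℝ} (h : w ∈ Ioo (-1 : ℝ) 1) (h2 : w' ∈ Ioo (-1 : ℝ) 1) (hww : w < w') :
    -qq μ (-w) ≤ qq μ w' := by
  have h' : -w ∈ Ioo (-1 : ℝ) 1 := ⟨by linarith [h.2], by linarith [h.1]⟩
  rw [qq_of_mem h', qq_of_mem h2]
  have := q0_sym2 hS (t := (1 + w) / 2) (t' := (1 + w') / 2) (by linarith [h.1]) (by linarith) (by linarith [h2.2])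
  have e : 1 - (1 + w) / 2 = (1 + -w) / 2 := by ring
  rw [e] at this
  exact this

lemma qq_space {l p : ℝ} (hl : 0 < l) (hp : 0 < p) (hC : Conc μ l p) {w : ℝ} (hw : -1 < w) (hw2 : w + 2 * p < 1) :
    qq μ w + l ≤ qq μ (w + 2 * p) := by
  have h1 : w ∈ Ioo (-1 : ℝ) 1 := ⟨hw, by linarith⟩
  have h2 : w + 2 * p ∈ Ioo (-1 : ℝ) 1 := ⟨by linarith, hw2⟩
  rw [qq_of_mem h1, qq_of_mem h2]
  set t := (1 + w) / 2 with ht
  have e : (1 + (w + 2 * p)) / 2 = t + p := by rw [ht]; ring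
  rw [e]
  have ht0 : 0 < t := by rw [ht]; linarith
  have ht1 : t + p < 1 := by rw [← e]; linarith
  by_contra hc
  rw [not_le] at hc
  -- a = q0 t - ε, b = q0 (t + p)
  obtain ⟨a, ha1, ha2⟩ : ∃ a, q0 μ (t + p) - l < a ∧ a < q0 μ t := exists_between (by linarith)
  have h3 : cdf μ a < t := by
    by_contra hc'
    exact absurd ((q0_le_iff ht0 (by linarith)).2 (not_lt.1 hc')) (not_le.2 ha2)
  have h4 := q0_mem (μ := μ) (t := t + p) (by linarith) ht1
  have h5 : q0 μ t ≤ q0 μ (t + p) := q0_mono ht0 (by linarith) ht1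
  have h6 : μ.real (Ioc a (q0 μ (t + p))) = cdf μ (q0 μ (t + p)) - cdf μ a := by
    have e1 : Ioc a (q0 μ (t + p)) = Iic (q0 μ (t + p)) \ Iic a := by
      ext x; simp only [mem_Ioc, mem_diff, mem_Iic, not_le]; tauto
    rw [e1, measureReal_diff (Iic_subset_Iic.2 (by linarith)) measurableSet_Iic, cdf_eq_real, cdf_eq_real]
  have h7 : μ.real (Ioc a (q0 μ (t + p))) ≤ p := by
    have hsub : Ioc a (q0 μ (t + p)) ⊆ Ico a (a + l) := by
      intro x hx
      exact ⟨hx.1.le, by linarith [hx.2]⟩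
    exact (measureReal_mono hsub).trans (hC a)
  linarith

end

theorem t_QUANT : P_QUANT := by
  intro μ _ l p hl hp hp1 hC hS
  refine ⟨qq μ, qq_meas, qq_mono, fun w hw hw2 => qq_space hl hp hC hw hw2, ?_, qq_law⟩
  have hcount := (qq_mono (μ := μ)).countable_not_continuousWithinAt
  have hae : ∀ᵐ w ∂(volume : Measure ℝ), w ∉ {x ∈ Ioo (-1 : ℝ) 1 | ¬ContinuousWithinAt (qq μ) (Ioo (-1) 1) x} :=
    measure_eq_zero_iff_ae_notMem.1 (hcount.measure_zero volume)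
  rw [ae_restrict_iff' measurableSet_Ioo]
  filter_upwards [hae] with w hw hmem
  have hcont : ContinuousWithinAt (qq μ) (Ioo (-1) 1) w := by
    by_contra hc
    exact hw ⟨hmem, hc⟩
  have h1 := qq_sym1 hS hmem
  have h2 : -qq μ (-w) ≤ qq μ w := by
    have hcont' : Tendsto (qq μ) (𝓝[>] w) (𝓝 (qq μ w)) := by
      have hsub : 𝓝[>] w ≤ 𝓝[Ioo (-1) 1] w := by
        rw [← nhdsWithin_Ioo_eq_nhdsGT hmem.2]
        exact nhdsWithin_mono _ fun x hx => ⟨by linarith [hx.1, hmem.1], hx.2⟩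
      exact Tendsto.mono_left hcont hsub
    refine ge_of_tendsto hcont' ?_
    have : ∀ᶠ x in 𝓝[>] w, x ∈ Ioo w 1 := Ioo_mem_nhdsGT hmem.2
    filter_upwards [this] with x hx
    exact qq_sym2 hS hmem ⟨by linarith [hx.1, hmem.1], hx.2⟩ hx.1
  linarith

end Pool.Agent.Q247.HEA
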