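import Pool.Agent.Q291.HEA.Stm2

/-!
# Project HEA, job STEP (helper247): the concentration inequality at zero temperature
-/

set_option autoImplicit false

namespace Pool.Agent.Q247.HEA

open MeasureTheory Set Filter Topology Pool.Agent.Q291.HEA

lemma F0_measS : Measurable (fun z : ℝ × ℝ => F0 z.1 z.2) := by
  unfold F0
  fun_prop

lemma par_prob (ν : Measure ℝ) [IsProbabilityMeasure ν] (n : ℕ) : IsProbabilityMeasure (par ν n) := by
  induction n with
  | zero => unfold par; infer_instance
  | succ n ih => unfold par; infer_instance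

lemma CB_c0 (ν : Measure ℝ) [IsProbabilityMeasure ν] (l : ℝ) (hl : 0 < l) : CB ν l c0 := by
  intro k y hy
  rcases k with _ | k
  · simp [c0]
  · have hmono : ∀ i j : ℕ, i < j → y i + l ≤ y j := by
      intro i j hij
      induction j with
      | zero => omega
      | succ j ih =>
        rcases Nat.lt_or_ge i j with h | h
        · linarith [ih h, hy j]
        · have : i = j := by omega
          subst this
          exact hy i
    have hdisj : Set.PairwiseDisjoint (↑(Finset.range (k + 1))) (fun j => Ico (y j) (y j + l)) := by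
      intro i _ j _ hij
      rw [Function.onFun, Set.disjoint_left]
      intro x h1 h2
      rcases Nat.lt_or_gt_of_ne hij with h | h
      · have := hmono i j h
        linarith [h1.2, h2.1]
      · have := hmono j i h
        linarith [h2.2, h1.1]
    rw [← measureReal_biUnion_finset hdisj (fun _ _ => measurableSet_Ico)]
    have : c0 (k + 1) = 1 := by simp [c0]
    rw [this]
    exact measureReal_le_one

theorem t_STEP : P_QUANT → P_LAWX → P_INTEG → P_S4 → P_STEP := by
  intro hQ hL hI hS4 μ _ l p hl hp hp2 hsym hC B hB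
  obtain ⟨K, u, v, hK, hu, hv, huv, hpuv, hU⟩ := hS4 p hp hp2
  obtain ⟨q, hqm, hqmono, hqs, hqodd, hμ⟩ := hQ μ l p hl hp (by linarith) hC hsym
  have hlaw := hL μ q hqm hqmono hqodd hμ
  have hspace : ∀ w, -1 < w → w + 2 * (u + v) < 1 → q w + l ≤ q (w + 2 * (u + v)) := by
    intro w hw hw2
    have h1 := hqs w hw (by linarith)
    have h2 : q (w + 2 * p) ≤ q (w + 2 * (u + v)) :=
      hqmono ⟨by linarith, by linarith⟩ ⟨by linarith, hw2⟩ (by linarith)
    linarith
  set ν := ser F0 μ with hν
  haveI : IsProbabilityMeasure ν := by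
    rw [hν]; unfold ser
    exact Measure.isProbabilityMeasure_map F0_measS.aemeasurable
  obtain ⟨n, rfl⟩ : ∃ n, B = n + 4 := ⟨B - 4, by omega⟩
  haveI : ∀ m, IsProbabilityMeasure (par ν m) := par_prob ν
  have hstep : ∀ (m : ℕ) (c : ℕ → ℝ), CB (par ν m) l c → CB (par ν (m + 1)) l (U K u v c) := by
    intro m c hc
    have h1 := hI (par ν m) l c hl hc K u v (by omega) hu hv huv q hqm hqmono hspace
    rw [← hlaw] at h1
    exact h1
  have h4 := hstep _ _ (hstep _ _ (hstep _ _ (hstep n c0 (CB_c0 _ l hl))))
  intro x
  have h5 := h4 1 (fun j => x + j * l) (fun j => by push_cast; linarith)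
  simp only [Finset.range_one, Finset.sum_singleton, Nat.cast_zero, zero_mul, add_zero] at h5
  exact h5.trans hU

end Pool.Agent.Q247.HEA
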